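import Mathlib

/-!
# A rational base-4 type limit forces a repeating tail
-/

set_option autoImplicit false

open Filter Topology

namespace Pool.Agent.Lib.MP_2ab887_nt

theorem tail_repeats {α e : ℕ → ℕ} (hrec : ∀ n, α (n + 1) + e n = 4 * α n)
    (he : ∀ n, e n = 1 ∨ e n = 2) {q : ℚ}
    (hlim : Tendsto (fun n : ℕ => (α n : ℝ) / 4 ^ n) atTop (𝓝 (q : ℝ))) :
    ∃ m n : ℕ, m < n ∧ ∀ i, e (m + i) = e (n + i) := by
  -- the tails
  set τ : ℕ → ℝ := fun n => (α n : ℝ) - 4 ^ n * q with hτ
  have hτrec : ∀ n, τ (n + 1) = 4 * τ n - e n := by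
    intro n
    have h1 : ((α (n + 1) : ℝ)) + e n = 4 * α n := by exact_mod_cast hrec n
    simp only [hτ, pow_succ]
    linarith
  have he1 : ∀ n, (1 : ℝ) ≤ e n := by
    intro n; rcases he n with h | h <;> rw [h] <;> norm_num
  have he2 : ∀ n, (e n : ℝ) ≤ 2 := by
    intro n; rcases he n with h | h <;> rw [h] <;> norm_num
  have hτlim : Tendsto (fun n : ℕ => τ n / 4 ^ n) atTop (𝓝 0) := by
    have : (fun n : ℕ => τ n / 4 ^ n) = fun n : ℕ => (α n : ℝ) / 4 ^ n - q := by
      funext n
      simp only [hτ]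
      field_simp
    rw [this]
    simpa using hlim.sub_const (q : ℝ)
  -- upper bound
  have hup : ∀ n, τ n ≤ 2 / 3 := by
    intro n
    by_contra hcon
    push Not at hcon
    have hgrow : ∀ k, 4 ^ k * (τ n - 2 / 3) ≤ τ (n + k) - 2 / 3 := by
      intro k
      induction k with
      | zero => simp
      | succ k ih =>
        have := hτrec (n + k)
        have h2 := he2 (n + k)
        rw [← add_assoc, this, pow_succ]
        linarith
    have hle : ∀ k, (τ n - 2 / 3) / 4 ^ n ≤ τ (n + k) / 4 ^ (n + k) := by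
      intro k
      have h4 : (0 : ℝ) < 4 ^ (n + k) := by positivity
      have h5 : (0 : ℝ) < 4 ^ n := by positivity
      rw [div_le_div_iff₀ h5 h4, pow_add]
      have := hgrow k
      nlinarith
    have hlim2 : Tendsto (fun k : ℕ => τ (n + k) / 4 ^ (n + k)) atTop (𝓝 0) := by
      have := hτlim.comp (tendsto_add_atTop_nat n)
      refine this.congr ?_
      intro k
      simp [Function.comp, add_comm]
    have h0 : (τ n - 2 / 3) / 4 ^ n ≤ 0 := ge_of_tendsto' hlim2 hle
    have h5 : (0 : ℝ) < 4 ^ n := by positivity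
    have : 0 < (τ n - 2 / 3) / 4 ^ n := div_pos (by linarith) h5
    linarith
  have hlow : ∀ n, 1 / 3 ≤ τ n := by
    intro n
    by_contra hcon
    push Not at hcon
    have hgrow : ∀ k, 4 ^ k * (1 / 3 - τ n) ≤ 1 / 3 - τ (n + k) := by
      intro k
      induction k with
      | zero => simp
      | succ k ih =>
        have := hτrec (n + k)
        have h2 := he1 (n + k)
        rw [← add_assoc, this, pow_succ]
        linarith
    have hle : ∀ k, τ (n + k) / 4 ^ (n + k) ≤ (1 / 3 - (1 / 3 - τ n) * 4 ^ k) / 4 ^ (n + k) := by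
      intro k
      have h4 : (0 : ℝ) < 4 ^ (n + k) := by positivity
      have := hgrow k
      gcongr
      linarith
    have hle' : ∀ k, τ (n + k) / 4 ^ (n + k) ≤
        (1 / 3) / 4 ^ n * (1 / 4 : ℝ) ^ k - (1 / 3 - τ n) / 4 ^ n := by
      intro k
      refine (hle k).trans (le_of_eq ?_)
      rw [pow_add, div_pow, one_pow]
      field_simp
    have hlim2 : Tendsto (fun k : ℕ => τ (n + k) / 4 ^ (n + k)) atTop (𝓝 0) := by
      have := hτlim.comp (tendsto_add_atTop_nat n)
      refine this.congr ?_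
      intro k
      simp [Function.comp, add_comm]
    have hlim3 : Tendsto (fun k : ℕ => (1 / 3) / 4 ^ n * (1 / 4 : ℝ) ^ k - (1 / 3 - τ n) / 4 ^ n)
        atTop (𝓝 ((1 / 3) / 4 ^ n * 0 - (1 / 3 - τ n) / 4 ^ n)) := by
      refine Tendsto.sub_const ?_ _
      refine Tendsto.const_mul _ ?_
      exact tendsto_pow_atTop_nhds_zero_of_lt_one (by norm_num) (by norm_num)
    have h0 := le_of_tendsto_of_tendsto' hlim2 hlim3 hle'
    have h5 : (0 : ℝ) < 4 ^ n := by positivity
    have : 0 < (1 / 3 - τ n) / 4 ^ n := div_pos (by linarith) h5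
    linarith
  -- the digit is determined by the tail
  have hdet : ∀ m n, τ m = τ n → e m = e n := by
    intro m n hmn
    have h1 := hτrec m
    have h2 := hτrec n
    have h3 := hup (m + 1)
    have h4 := hup (n + 1)
    have h5 := hlow (m + 1)
    have h6 := hlow (n + 1)
    rcases he m with h | h <;> rcases he n with h' | h' <;> rw [h, h'] <;>
      rw [h] at h1 <;> rw [h'] at h2 <;> exfalso <;> push_cast at h1 h2 <;> linarith
  -- the tails take finitely many values
  have hfin : ∀ n, ∃ z : ℤ, (τ n * q.den = z) ∧ 0 ≤ z ∧ z ≤ q.den := by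
    intro n
    have hq : (q : ℝ) * q.den = q.num := by
      have := Rat.mul_den_eq_num q
      exact_mod_cast congrArg (fun x : ℚ => (x : ℝ)) this
    have hz : τ n * q.den = (((α n : ℤ) * q.den - 4 ^ n * q.num : ℤ) : ℝ) := by
      push_cast
      simp only [hτ]
      rw [sub_mul, mul_assoc, hq]
    refine ⟨_, hz, ?_, ?_⟩
    · have h1 := hlow n
      have h2 : (0 : ℝ) ≤ q.den := by positivity
      have : (0 : ℝ) ≤ τ n * q.den := mul_nonneg (by linarith) h2
      rw [hz] at this
      exact_mod_cast this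
    · have h1 := hup n
      have h2 : (0 : ℝ) ≤ q.den := by positivity
      have : τ n * q.den ≤ q.den := by nlinarith
      rw [hz] at this
      exact_mod_cast this
  choose z hz hz0 hz1 using hfin
  have hpig : ∃ m n, m < n ∧ z m = z n := by
    have hmaps : Set.MapsTo z Set.univ (Set.Icc (0 : ℤ) q.den) := fun n _ => ⟨hz0 n, hz1 n⟩
    obtain ⟨m, -, n, -, hmn, h⟩ :=
      Set.infinite_univ.exists_lt_map_eq_of_mapsTo hmaps (Set.finite_Icc _ _)
    exact ⟨m, n, hmn, h⟩
  obtain ⟨m, n, hmn, hzz⟩ := hpig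
  refine ⟨m, n, hmn, ?_⟩
  have hden : (0 : ℝ) < q.den := by exact_mod_cast q.pos
  have h0 : τ m = τ n := by
    have h1 := hz m
    have h2 := hz n
    rw [hzz, ← h2] at h1
    exact mul_right_cancel₀ hden.ne' h1
  have hall : ∀ i, τ (m + i) = τ (n + i) := by
    intro i
    induction i with
    | zero => exact h0
    | succ i ih =>
      have h1 := hτrec (m + i)
      have h2 := hτrec (n + i)
      rw [hdet _ _ ih, ih] at h1
      rw [← add_assoc, ← add_assoc, h1, h2]
  exact fun i => hdet _ _ (hall i)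

end Pool.Agent.Lib.MP_2ab887_nt
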