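import Pool.Agent.Lib.MP_2ab887_nt.Height
import Pool.Agent.Lib.MP_2ab887_nt.Digits

/-!
# Assembling the counterexample
-/

set_option autoImplicit false

open Polynomial WithZero

namespace Pool.Agent.Lib.MP_2ab887_nt

/-- Unit-normalised pairs stay unit-normalised at places where `t` is a unit. -/
theorem good_step {K : Type*} [Field K] (h2 : (2 : K) = 0)
    (v : Valuation K (WithZero (Multiplicative ℤ))) {t x y : K}
    (ht : v t = 1) (hx : v x ≤ 1) (hy : v y ≤ 1) (hxy : v x = 1 ∨ v y = 1) :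
    v (FF t x y) ≤ 1 ∧ v (GG t x y) ≤ 1 ∧ (v (FF t x y) = 1 ∨ v (GG t x y) = 1) := by
  set O := v.valuationSubring with hO
  have hint : v.Integers O := Valuation.valuationSubring.integers v
  let t' : O := ⟨t, ht.le⟩
  let x' : O := ⟨x, hx⟩
  let y' : O := ⟨y, hy⟩
  have eF : (algebraMap O K) (FF t' x' y') = FF t x y := map_FF _ _ _ _
  have eG : (algebraMap O K) (GG t' x' y') = GG t x y := map_GG _ _ _ _
  have hunit : ∀ a : O, v (algebraMap O K a) = 1 ↔ IsLocalRing.residue O a ≠ 0 := by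
    intro a
    rw [← hint.isUnit_iff_valuation_eq_one, ne_eq, IsLocalRing.residue_eq_zero_iff,
      IsLocalRing.mem_maximalIdeal, mem_nonunits_iff, not_not]
  have hle : ∀ a : O, v (algebraMap O K a) ≤ 1 := fun a => hint.map_le_one a
  refine ⟨eF ▸ hle _, eG ▸ hle _, ?_⟩
  rw [← eF, ← eG, hunit, hunit, map_FF, map_GG]
  have ht' : IsLocalRing.residue O t' ≠ 0 := (hunit t').1 ht
  have hxy' : IsLocalRing.residue O x' ≠ 0 ∨ IsLocalRing.residue O y' ≠ 0 := by
    rcases hxy with h | h
    · exact Or.inl ((hunit x').1 h)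
    · exact Or.inr ((hunit y').1 h)
  have h2' : (2 : IsLocalRing.ResidueField O) = 0 := by
    have h2O : (2 : O) = 0 := by
      apply Subtype.ext
      exact h2
    have h := congrArg (IsLocalRing.residue O) h2O
    rwa [map_ofNat, map_zero] at h
  by_contra hcon
  push Not at hcon
  obtain ⟨e1, e2⟩ := no_common_zero h2' ht' hcon.1 hcon.2
  rcases hxy' with h | h
  · exact h e1
  · exact h e2

/-- The constant field. -/
abbrev kk : Type := AlgebraicClosure (ZMod 2)

/-- The inclusion of `(ZMod 2)[t]` in `k(t)`. -/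
noncomputable def phi : (ZMod 2)[X] →+* RatFunc kk :=
  (algebraMap kk[X] (RatFunc kk)).comp (Polynomial.mapRingHom (algebraMap (ZMod 2) kk))

theorem phi_X : phi X = RatFunc.X := by
  simp [phi, RatFunc.algebraMap_X]

theorem phi_ne_zero {p : (ZMod 2)[X]} (hp : p ≠ 0) : phi p ≠ 0 := by
  simp only [phi, RingHom.comp_apply]
  intro h
  have h1 := (IsFractionRing.injective kk[X] (RatFunc kk)) (h.trans (map_zero _).symm)
  exact hp ((Polynomial.map_eq_zero_iff (algebraMap (ZMod 2) kk).injective).1 h1)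

theorem two_kk : (2 : RatFunc kk) = 0 := by
  have : (2 : (ZMod 2)[X]) = 0 := two_eq_zero'
  have h := congrArg phi this
  rwa [map_ofNat, map_zero] at h

theorem vinf_phi {p : (ZMod 2)[X]} (hp : p ≠ 0) :
    (vinf kk).1 (phi p) = exp (p.natDegree : ℤ) := by
  classical
  have h0 : Polynomial.map (algebraMap (ZMod 2) kk) p ≠ 0 := by
    rwa [ne_eq, Polynomial.map_eq_zero_iff (algebraMap (ZMod 2) kk).injective]
  have h1 := RatFunc.inftyValuation.polynomial kk h0
  rw [Polynomial.natDegree_map] at h1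
  exact h1

theorem vzero_phi_le (p : (ZMod 2)[X]) : (vzero kk).1 (phi p) ≤ 1 :=
  IsDedekindDomain.HeightOneSpectrum.valuation_le_one _ _

theorem vzero_phi_eq {p : (ZMod 2)[X]} (hp : p.coeff 0 ≠ 0) : (vzero kk).1 (phi p) = 1 := by
  apply le_antisymm (vzero_phi_le p)
  by_contra hlt
  push Not at hlt
  change (Polynomial.idealX kk).valuation (RatFunc kk) _ < 1 at hlt
  simp only [phi, RingHom.comp_apply] at hlt
  rw [IsDedekindDomain.HeightOneSpectrum.valuation_of_algebraMap,
    IsDedekindDomain.HeightOneSpectrum.intValuation_lt_one_iff_mem,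
    Polynomial.idealX_span, Ideal.mem_span_singleton, X_dvd_iff, coe_mapRingHom, coeff_map,
    map_eq_zero] at hlt
  exact hp hlt

/-- The two coordinates of the `n`-th point of the orbit. -/
noncomputable def pt (n : ℕ) : Fin 2 → RatFunc kk :=
  ![phi (X ^ acc n * (orb n).1), phi (X ^ acc n * (orb n).2)]

theorem pt_succ (n : ℕ) : pt (n + 1) = ![FF RatFunc.X (pt n 0) (pt n 1),
    GG RatFunc.X (pt n 0) (pt n 1)] := by
  simp only [pt, Matrix.cons_val_zero, Matrix.cons_val_one]
  rw [← FF_orb, ← GG_orb, map_FF, map_GG, phi_X]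

theorem pt_good (v : Pl kk) (hv : v.1 RatFunc.X = 1) (n : ℕ) :
    v.1 (pt n 0) ≤ 1 ∧ v.1 (pt n 1) ≤ 1 ∧ (v.1 (pt n 0) = 1 ∨ v.1 (pt n 1) = 1) := by
  induction n with
  | zero =>
    simp only [pt, orb, acc, Matrix.cons_val_zero, Matrix.cons_val_one, pow_zero, one_mul,
      map_one, map_pow, phi_X, hv, one_pow, le_refl, true_and, or_self]
  | succ n ih =>
    obtain ⟨h1, h2, h3⟩ := ih
    rw [pt_succ]
    simp only [Matrix.cons_val_zero, Matrix.cons_val_one]
    exact good_step two_kk v.1 hv h1 h2 h3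

/-- The local contribution. -/
noncomputable def loc (z : Fin 2 → RatFunc kk) (v : Pl kk) : ℝ :=
  ((sInf {m : ℤ | ∀ i, v.1 (z i) ≤ WithZero.coe (Multiplicative.ofAdd m)} : ℤ) : ℝ)

theorem loc_inf (n : ℕ) : loc (pt n) (vinf kk) = (acc n + (orb n).1.natDegree : ℕ) := by
  have hA := (deg_orb n).1
  have hB := orb_snd_ne n
  have hle := (deg_orb n).2
  have h2n := Nat.two_pow_pos n
  have h0 : (vinf kk).1 (pt n 0) = exp ((acc n + (orb n).1.natDegree : ℕ) : ℤ) := by
    simp only [pt, Matrix.cons_val_zero]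
    rw [vinf_phi (mul_ne_zero (pow_ne_zero _ X_ne_zero) hA), natDegree_X_pow_mul' _ hA]
  have h1 : (vinf kk).1 (pt n 1) = exp ((acc n + (orb n).2.natDegree : ℕ) : ℤ) := by
    change (vinf kk).1 (phi (X ^ acc n * (orb n).2)) = _
    rw [vinf_phi (mul_ne_zero (pow_ne_zero _ X_ne_zero) hB), natDegree_X_pow_mul' _ hB]
  unfold loc
  rw [sInf_eq (vinf kk).1 (pt n) ((acc n + (orb n).1.natDegree : ℕ) : ℤ)]
  · simp
  · intro i
    fin_cases i
    · exact h0.le
    · change (vinf kk).1 (pt n 1) ≤ _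
      rw [h1, exp_le_exp]
      omega
  · exact ⟨0, h0⟩

theorem loc_zero (n : ℕ) : loc (pt n) (vzero kk) = -(acc n : ℝ) := by
  have hX : (vzero kk).1 (phi X) = exp (-1) := by rw [phi_X]; exact vzero_X
  have hXn : (vzero kk).1 (phi (X ^ acc n)) = exp (-(acc n : ℤ)) := by
    rw [map_pow, map_pow, hX, ← exp_nsmul]
    congr 1
    simp
  have h0 : (vzero kk).1 (pt n 0) ≤ exp (-(acc n : ℤ)) := by
    simp only [pt, Matrix.cons_val_zero]
    rw [map_mul, map_mul, hXn]
    exact mul_le_of_le_one_right' (vzero_phi_le _)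
  have h1 : (vzero kk).1 (pt n 1) = exp (-(acc n : ℤ)) := by
    change (vzero kk).1 (phi (X ^ acc n * (orb n).2)) = _
    rw [map_mul, map_mul, hXn, vzero_phi_eq, mul_one]
    rw [orb_snd_coeff]; exact one_ne_zero
  unfold loc
  rw [sInf_eq (vzero kk).1 (pt n) (-(acc n : ℤ))]
  · simp
  · intro i
    fin_cases i
    · exact h0
    · exact h1.le
  · exact ⟨1, h1⟩

theorem loc_other (n : ℕ) (v : Pl kk) (h0 : v ≠ vzero kk) (h1 : v ≠ vinf kk) :
    loc (pt n) v = 0 := by
  have hv : v.1 RatFunc.X = 1 := by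
    rcases lt_trichotomy (v.1 RatFunc.X) 1 with h | h | h
    · exfalso
      apply h0
      apply eq_of_lt_one h
      rw [vzero_X, ← exp_zero, exp_lt_exp]
      omega
    · exact h
    · exfalso
      apply h1
      apply eq_of_one_lt h
      rw [vinf_X, ← exp_zero, exp_lt_exp]
      omega
  obtain ⟨e1, e2, e3⟩ := pt_good v hv n
  unfold loc
  rw [sInf_eq v.1 (pt n) 0]
  · simp
  · intro i
    rw [exp_zero]
    fin_cases i
    · exact e1
    · exact e2
  · rw [exp_zero]
    rcases e3 with h | h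
    · exact ⟨0, h⟩
    · exact ⟨1, h⟩

theorem finsum_loc (n : ℕ) : ∑ᶠ v : Pl kk, loc (pt n) v = ((orb n).1.natDegree : ℝ) := by
  classical
  rw [finsum_eq_sum_of_support_subset (s := {vzero kk, vinf kk})]
  · rw [Finset.sum_pair vzero_ne_vinf, loc_zero, loc_inf]
    push_cast
    ring
  · intro v hv
    rw [Function.mem_support] at hv
    by_contra hcon
    simp only [Finset.coe_insert, Finset.coe_singleton, Set.mem_insert_iff,
      Set.mem_singleton_iff, not_or] at hcon
    exact hv (loc_other n v hcon.1 hcon.2)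

end Pool.Agent.Lib.MP_2ab887_nt
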