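import Pool.Agent.Lib.MP_2ab887_nt.Inj

/-!
# The height of a point of the orbit as a sum over all places
-/

set_option autoImplicit false

open Polynomial WithZero

namespace Pool.Agent.Lib.MP_2ab887_nt

/-- Places of `k(t)` over `k`. -/
abbrev Pl (k : Type) [Field k] :=
  {v : Valuation (RatFunc k) (WithZero (Multiplicative ℤ)) //
    Function.Surjective v ∧
      ∀ c : k, c ≠ 0 → v (algebraMap (RatFunc k) (RatFunc k) (RatFunc.C c)) = 1}

variable {k : Type} [Field k]

theorem Pl.C_eq_one (v : Pl k) {c : k} (hc : c ≠ 0) : v.1 (RatFunc.C c) = 1 := v.2.2 c hc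

instance (v : Pl k) : v.1.IsTrivialOn k := ⟨fun c hc => by
  rw [RatFunc.algebraMap_eq_C]; exact v.C_eq_one hc⟩

theorem exp_of_zpow (v : Pl k) (h : ∀ f : RatFunc k, f ≠ 0 → ∃ z : ℤ, v.1 f = v.1 RatFunc.X ^ z) :
    v.1 RatFunc.X = exp 1 ∨ v.1 RatFunc.X = exp (-1) := by
  obtain ⟨f, hf⟩ := v.2.1 (exp (1 : ℤ))
  have hf0 : f ≠ 0 := by
    rintro rfl
    rw [map_zero] at hf
    exact exp_ne_zero hf.symm
  obtain ⟨z, hz⟩ := h f hf0
  have hX : v.1 RatFunc.X ≠ 0 := by simpa using RatFunc.X_ne_zero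
  obtain ⟨a, ha⟩ : ∃ a : ℤ, v.1 RatFunc.X = exp a := ⟨log (v.1 RatFunc.X), (exp_log hX).symm⟩
  rw [hf, ha, ← exp_zsmul, exp_inj, smul_eq_mul] at hz
  rw [ha, exp_inj, exp_inj]
  exact Int.isUnit_iff.1 (IsUnit.of_mul_eq_one z (by rw [mul_comm]; exact hz.symm))

theorem poly_lt_one {p : k[X]} (hp : p ≠ 0) : ∃ n : ℕ, ∀ v : Pl k, v.1 RatFunc.X < 1 →
    v.1 (algebraMap k[X] (RatFunc k) p) = v.1 RatFunc.X ^ n := by
  obtain ⟨n, q, hq, he⟩ := WfDvdMonoid.max_power_factor hp (irreducible_X (R := k))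
  refine ⟨n, fun v hv => ?_⟩
  have h0 : q.coeff 0 ≠ 0 := by rwa [ne_eq, ← X_dvd_iff]
  have h1 : v.1 (algebraMap k[X] (RatFunc k) q) = 1 := by
    have hq' := q.X_mul_divX_add
    rw [← hq', map_add, map_mul, RatFunc.algebraMap_X, RatFunc.algebraMap_C]
    have h2 : v.1 (RatFunc.C (q.coeff 0)) = 1 := v.C_eq_one h0
    have h3 : v.1 (RatFunc.X * algebraMap k[X] (RatFunc k) q.divX) < 1 := by
      rw [map_mul]
      have h4 : v.1 (algebraMap k[X] (RatFunc k) q.divX) ≤ 1 := by
        have := Polynomial.valuation_le_one_of_valuation_X_le_one k (v := v.1) hv.le q.divX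
        rwa [RatFunc.coePolynomial_eq_algebraMap] at this
      exact mul_lt_one_of_lt_of_le hv h4
    rw [Valuation.map_add_eq_of_lt_right _ (h3.trans_eq h2.symm), h2]
  rw [he, map_mul, map_mul, h1, mul_one, map_pow, map_pow, RatFunc.algebraMap_X]

theorem rat_lt_one (f : RatFunc k) (hf : f ≠ 0) : ∃ z : ℤ, ∀ v : Pl k, v.1 RatFunc.X < 1 →
    v.1 f = v.1 RatFunc.X ^ z := by
  induction f using RatFunc.induction_on with
  | f p q hq =>
    have hp : p ≠ 0 := by rintro rfl; simp at hf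
    obtain ⟨n, hn⟩ := poly_lt_one hp
    obtain ⟨m, hm⟩ := poly_lt_one hq
    refine ⟨(n : ℤ) - m, fun v hv => ?_⟩
    have hX : v.1 RatFunc.X ≠ 0 := by simpa using RatFunc.X_ne_zero
    rw [map_div₀, hn v hv, hm v hv, zpow_sub₀ hX, zpow_natCast, zpow_natCast]

theorem X_of_lt_one (v : Pl k) (hv : v.1 RatFunc.X < 1) : v.1 RatFunc.X = exp (-1) := by
  rcases exp_of_zpow v (fun f hf => by
    obtain ⟨z, hz⟩ := rat_lt_one f hf
    exact ⟨z, hz v hv⟩) with h | h
  · exfalso
    rw [h, ← exp_zero, exp_lt_exp] at hv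
    omega
  · exact h

theorem X_of_one_lt (v : Pl k) (hv : 1 < v.1 RatFunc.X) : v.1 RatFunc.X = exp 1 := by
  rcases exp_of_zpow v (fun f hf => ⟨_,
    RatFunc.valuation_eq_valuation_X_zpow_intDegree_of_one_lt_valuation_X hv hf⟩) with h | h
  · exact h
  · exfalso
    rw [h, ← exp_zero, exp_lt_exp] at hv
    omega

theorem eq_of_lt_one {v w : Pl k} (hv : v.1 RatFunc.X < 1) (hw : w.1 RatFunc.X < 1) : v = w := by
  apply Subtype.ext
  ext f
  rcases eq_or_ne f 0 with rfl | hf
  · simp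
  · obtain ⟨z, hz⟩ := rat_lt_one f hf
    rw [hz v hv, hz w hw, X_of_lt_one v hv, X_of_lt_one w hw]

theorem eq_of_one_lt {v w : Pl k} (hv : 1 < v.1 RatFunc.X) (hw : 1 < w.1 RatFunc.X) : v = w := by
  apply Subtype.ext
  ext f
  rcases eq_or_ne f 0 with rfl | hf
  · simp
  · rw [RatFunc.valuation_eq_valuation_X_zpow_intDegree_of_one_lt_valuation_X hv hf,
      RatFunc.valuation_eq_valuation_X_zpow_intDegree_of_one_lt_valuation_X hw hf,
      X_of_one_lt v hv, X_of_one_lt w hw]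

open Classical in
/-- The place at infinity. -/
noncomputable def vinf (k : Type) [Field k] : Pl k :=
  ⟨RatFunc.inftyValuation k, by
    intro n
    by_cases hn0 : n = 0
    · exact ⟨0, by simp [hn0]⟩
    · refine ⟨RatFunc.X ^ (WithZero.log n), ?_⟩
      rw [RatFunc.inftyValuation.X_zpow, exp_log hn0], fun c hc => by
      simpa using RatFunc.inftyValuation.C k hc⟩

theorem vinf_X : (vinf k).1 RatFunc.X = exp 1 := by
  classical
  simp [vinf]

/-- The place at zero. -/
noncomputable def vzero (k : Type) [Field k] : Pl k :=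
  ⟨(Polynomial.idealX k).valuation (RatFunc k), RatFunc.valuation_surjective k, fun c hc => by
    have h1 : RatFunc.C c = algebraMap k[X] (RatFunc k) (C c) := (RatFunc.algebraMap_C c).symm
    change (Polynomial.idealX k).valuation (RatFunc k) (RatFunc.C c) = 1
    rw [h1, IsDedekindDomain.HeightOneSpectrum.valuation_of_algebraMap]
    apply le_antisymm (IsDedekindDomain.HeightOneSpectrum.intValuation_le_one _ _)
    by_contra hlt
    push Not at hlt
    rw [IsDedekindDomain.HeightOneSpectrum.intValuation_lt_one_iff_mem] at hlt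
    rw [Polynomial.idealX_span, Ideal.mem_span_singleton, X_dvd_iff, coeff_C_zero] at hlt
    exact hc hlt⟩

theorem vzero_X : (vzero k).1 RatFunc.X = exp (-1) := Polynomial.valuation_X_eq_neg_one k

theorem vzero_ne_vinf : vzero k ≠ vinf k := by
  intro h
  have h1 := vzero_X (k := k)
  rw [h, vinf_X, exp_inj] at h1
  omega

theorem sInf_eq {ι : Type*} {K : Type*} [Field K]
    (v : Valuation K (WithZero (Multiplicative ℤ))) (z : ι → K) (M : ℤ)
    (h1 : ∀ i, v (z i) ≤ exp M) (h2 : ∃ i, v (z i) = exp M) :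
    sInf {m : ℤ | ∀ i, v (z i) ≤ WithZero.coe (Multiplicative.ofAdd m)} = M := by
  have : {m : ℤ | ∀ i, v (z i) ≤ WithZero.coe (Multiplicative.ofAdd m)} = Set.Ici M := by
    ext m
    simp only [Set.mem_ofPred_eq, Set.mem_Ici]
    constructor
    · intro h
      obtain ⟨i, hi⟩ := h2
      have := h i
      rw [hi, ← exp_eq_coe_ofAdd, exp_le_exp] at this
      exact this
    · intro h i
      refine (h1 i).trans ?_
      rw [← exp_eq_coe_ofAdd, exp_le_exp]
      exact h
  rw [this, csInf_Ici]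

end Pool.Agent.Lib.MP_2ab887_nt
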