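import Pool.Agent.Lib.MP_2ab887_nt.Orbit

/-!
# Degrees and injectivity of the itinerary
-/

set_option autoImplicit false

open Polynomial

namespace Pool.Agent.Lib.MP_2ab887_nt

theorem orb_snd_ne (n : ℕ) : (orb n).2 ≠ 0 := by
  intro h
  have := orb_snd_coeff n
  rw [h] at this
  simp at this

theorem natDegree_FF {A B : (ZMod 2)[X]} (h : B.natDegree + 2 ≤ A.natDegree) :
    (FF X A B).natDegree = 4 * A.natDegree := by
  have hA : A ≠ 0 := by rintro rfl; simp at h
  unfold FF
  have h1 : (A ^ 2 + A * B).natDegree = 2 * A.natDegree := by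
    rw [natDegree_add_eq_left_of_natDegree_lt]
    · rw [natDegree_pow]
    · rw [natDegree_pow]
      refine lt_of_le_of_lt natDegree_mul_le ?_
      omega
  have h2 : (A ^ 2 + X * A * B + (X + X ^ 2) * B ^ 2).natDegree = 2 * A.natDegree := by
    rw [add_assoc, natDegree_add_eq_left_of_natDegree_lt]
    · rw [natDegree_pow]
    · rw [natDegree_pow]
      refine lt_of_le_of_lt (natDegree_add_le _ _) ?_
      refine max_lt ?_ ?_
      · refine lt_of_le_of_lt natDegree_mul_le ?_
        have : (X * A : (ZMod 2)[X]).natDegree ≤ 1 + A.natDegree :=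
          natDegree_mul_le.trans (by simp)
        omega
      · refine lt_of_le_of_lt natDegree_mul_le ?_
        have h3 : (X + X ^ 2 : (ZMod 2)[X]).natDegree ≤ 2 := by
          refine (natDegree_add_le _ _).trans ?_
          simp
        rw [natDegree_pow]
        omega
  rw [natDegree_mul, h1, h2]
  · ring
  · intro h0; rw [h0] at h1; simp at h1; omega
  · intro h0; rw [h0] at h2; simp at h2; omega

theorem natDegree_GG {A B : (ZMod 2)[X]} (hB : B ≠ 0) (h : B.natDegree + 2 ≤ A.natDegree) :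
    (GG X A B).natDegree = 1 + 2 * B.natDegree + 2 * A.natDegree := by
  unfold GG
  have h2 : (A ^ 2 + X * A * B + X * B ^ 2).natDegree = 2 * A.natDegree := by
    rw [add_assoc, natDegree_add_eq_left_of_natDegree_lt]
    · rw [natDegree_pow]
    · rw [natDegree_pow]
      refine lt_of_le_of_lt (natDegree_add_le _ _) ?_
      refine max_lt ?_ ?_
      · refine lt_of_le_of_lt natDegree_mul_le ?_
        have : (X * A : (ZMod 2)[X]).natDegree ≤ 1 + A.natDegree :=
          natDegree_mul_le.trans (by simp)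
        omega
      · refine lt_of_le_of_lt natDegree_mul_le ?_
        rw [natDegree_pow, natDegree_X]
        omega
  rw [natDegree_mul, natDegree_mul, h2, natDegree_pow, natDegree_X]
  · exact X_ne_zero
  · exact pow_ne_zero _ hB
  · exact mul_ne_zero X_ne_zero (pow_ne_zero _ hB)
  · intro h0; rw [h0] at h2; simp at h2; omega

theorem natDegree_X_pow_mul' {A : (ZMod 2)[X]} (n : ℕ) (hA : A ≠ 0) :
    (X ^ n * A).natDegree = n + A.natDegree := by
  rw [natDegree_mul (pow_ne_zero _ X_ne_zero) hA, natDegree_pow, natDegree_X, mul_one]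

theorem deg_orb (n : ℕ) : (orb n).1 ≠ 0 ∧
    (orb n).1.natDegree = (orb n).2.natDegree + (2 ^ n + 1) := by
  induction n with
  | zero => simp [orb]
  | succ n ih =>
    obtain ⟨hA, ih⟩ := ih
    have hpow : 1 ≤ 2 ^ n := Nat.one_le_two_pow
    have h1 := natDegree_FF (A := (orb n).1) (B := (orb n).2) (by omega)
    have h2 := natDegree_GG (A := (orb n).1) (B := (orb n).2) (orb_snd_ne n) (by omega)
    rw [FF_nxt _ (orb_snd_coeff n)] at h1
    rw [GG_nxt] at h2
    have hne : (nxt (orb n)).1 ≠ 0 := by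
      intro h0
      rw [h0, mul_zero, natDegree_zero] at h1
      omega
    have hne2 : (nxt (orb n)).2 ≠ 0 := orb_snd_ne (n + 1)
    rw [natDegree_X_pow_mul' _ hne] at h1
    rw [natDegree_X_pow_mul' _ hne2] at h2
    refine ⟨hne, ?_⟩
    change (nxt (orb n)).1.natDegree = (nxt (orb n)).2.natDegree + (2 ^ (n + 1) + 1)
    rw [pow_succ]
    omega

theorem deg_rec (n : ℕ) : (orb (n + 1)).1.natDegree + dig (orb n) = 4 * (orb n).1.natDegree := by
  obtain ⟨hA, ih⟩ := deg_orb n
  have hpow : 1 ≤ 2 ^ n := Nat.one_le_two_pow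
  have h1 := natDegree_FF (A := (orb n).1) (B := (orb n).2) (by omega)
  rw [FF_nxt _ (orb_snd_coeff n)] at h1
  have hne : (nxt (orb n)).1 ≠ 0 := (deg_orb (n + 1)).1
  rw [natDegree_X_pow_mul' _ hne] at h1
  change (nxt (orb n)).1.natDegree + _ = _
  omega

/-- cross determinant -/
noncomputable def cr (p q : (ZMod 2)[X] × (ZMod 2)[X]) : (ZMod 2)[X] :=
  p.1 * q.2 - q.1 * p.2

theorem cross_identity {R : Type*} [CommRing R] (t A B C D : R) :
    FF t A B * GG t C D - FF t C D * GG t A B =
      t * (A * D - C * B) *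
        ((A * D + C * B + B * D) * (A ^ 2 + t * A * B + t * B ^ 2) * (C ^ 2 + t * C * D + t * D ^ 2)
          + t ^ 2 * B ^ 2 * D ^ 2 * ((t - 1) * A * C + t * (A * D + C * B) + t * B * D)) := by
  simp only [FF, GG]; ring

theorem cross_identity' {R : Type*} [CommRing R] (t A' B C' D : R) :
    FF t (t * A') B * GG t (t * C') D - FF t (t * C') D * GG t (t * A') B =
      t ^ 3 * ((t * A') * D - (t * C') * B) *
        (((t * A') * D + (t * C') * B + B * D) * (t * A' ^ 2 + t * A' * B + B ^ 2)
          * (t * C' ^ 2 + t * C' * D + D ^ 2)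
          + B ^ 2 * D ^ 2 * ((t - 1) * (t * A') * (t * C') + t * ((t * A') * D + (t * C') * B)
            + t * B * D)) := by
  simp only [FF, GG]; ring

theorem cr_step {p q : (ZMod 2)[X] × (ZMod 2)[X]} (hp : p.2.coeff 0 = 1) (hq : q.2.coeff 0 = 1)
    (h : dig p = dig q) :
    ∃ R : (ZMod 2)[X], R.coeff 0 = 1 ∧ X * cr (nxt p) (nxt q) = cr p q * R := by
  have hXne : (X : (ZMod 2)[X]) ≠ 0 := X_ne_zero
  have e1 := FF_nxt p hp
  have e2 := GG_nxt p
  have e3 := FF_nxt q hq
  have e4 := GG_nxt q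
  obtain ⟨A, B⟩ := p
  obtain ⟨C, D⟩ := q
  simp only at hp hq e1 e2 e3 e4
  by_cases hA : A.coeff 0 = 0
  · have hC : C.coeff 0 = 0 := by
      by_contra hC
      simp [dig, hA, hC] at h
    have d1 : dig (A, B) = 2 := by simp [dig, hA]
    have d2 : dig (C, D) = 2 := by simp [dig, hC]
    rw [d1] at e1 e2
    rw [d2] at e3 e4
    have hA' := A.X_mul_divX_add
    have hC' := C.X_mul_divX_add
    rw [hA, C_0, add_zero] at hA'
    rw [hC, C_0, add_zero] at hC'
    set A' := A.divX
    set C' := C.divX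
    refine ⟨((X * A') * D + (X * C') * B + B * D) * (X * A' ^ 2 + X * A' * B + B ^ 2)
          * (X * C' ^ 2 + X * C' * D + D ^ 2)
          + B ^ 2 * D ^ 2 * ((X - 1) * (X * A') * (X * C') + X * ((X * A') * D + (X * C') * B)
            + X * B * D), ?_, ?_⟩
    · simp only [coeff_zero_eq_eval_zero] at *
      simp [hp, hq]
    · have key := cross_identity' (R := (ZMod 2)[X]) X A' B C' D
      rw [hA', hC', e1, e2, e3, e4] at key
      have hX3 : (X : (ZMod 2)[X]) ^ 3 ≠ 0 := pow_ne_zero _ hXne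
      apply mul_left_cancel₀ hX3
      simp only [cr]
      rw [hA', hC']
      linear_combination key
  · have hC : C.coeff 0 ≠ 0 := by
      intro hC
      simp [dig, hA, hC] at h
    have d1 : dig (A, B) = 1 := by simp [dig, hA]
    have d2 : dig (C, D) = 1 := by simp [dig, hC]
    rw [d1] at e1 e2
    rw [d2] at e3 e4
    have hA1 := zmod2_eq_one hA
    have hC1 := zmod2_eq_one hC
    refine ⟨(A * D + C * B + B * D) * (A ^ 2 + X * A * B + X * B ^ 2) *
        (C ^ 2 + X * C * D + X * D ^ 2)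
          + X ^ 2 * B ^ 2 * D ^ 2 * ((X - 1) * A * C + X * (A * D + C * B) + X * B * D), ?_, ?_⟩
    · simp only [coeff_zero_eq_eval_zero] at *
      simp [hp, hq, hA1, hC1]
      decide
    · have key := cross_identity (R := (ZMod 2)[X]) X A B C D
      rw [e1, e2, e3, e4] at key
      apply mul_left_cancel₀ hXne
      simp only [cr]
      linear_combination key

theorem itinerary_inj {m n : ℕ} (h : ∀ i, dig (orb (m + i)) = dig (orb (n + i))) :
    cr (orb m) (orb n) = 0 := by
  have key : ∀ i, ∃ S : (ZMod 2)[X], S.coeff 0 = 1 ∧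
      X ^ i * cr (orb (m + i)) (orb (n + i)) = cr (orb m) (orb n) * S := by
    intro i
    induction i with
    | zero => exact ⟨1, by simp, by simp⟩
    | succ i ih =>
      obtain ⟨S, hS, e⟩ := ih
      obtain ⟨R, hR, e'⟩ := cr_step (orb_snd_coeff (m + i)) (orb_snd_coeff (n + i)) (h i)
      refine ⟨S * R, ?_, ?_⟩
      · rw [mul_coeff_zero, hS, hR, mul_one]
      · change X ^ (i + 1) * cr (nxt (orb (m + i))) (nxt (orb (n + i))) = _
        linear_combination X ^ i * e' + R * e
  by_contra hne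
  obtain ⟨S, hS, e⟩ := key ((cr (orb m) (orb n)).natDegree + 1)
  have hcop : IsCoprime ((X : (ZMod 2)[X]) ^ ((cr (orb m) (orb n)).natDegree + 1)) S := by
    apply IsCoprime.pow_left
    rw [Irreducible.coprime_iff_not_dvd irreducible_X, X_dvd_iff, hS]
    exact one_ne_zero
  have hdvd : (X : (ZMod 2)[X]) ^ ((cr (orb m) (orb n)).natDegree + 1) ∣ cr (orb m) (orb n) := by
    apply hcop.dvd_of_dvd_mul_right
    exact ⟨_, e.symm⟩
  have := natDegree_le_of_dvd hdvd hne
  rw [natDegree_pow, natDegree_X] at this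
  omega

theorem not_same_itinerary {m n : ℕ} (hmn : m < n)
    (h : ∀ i, dig (orb (m + i)) = dig (orb (n + i))) : False := by
  have h0 := itinerary_inj h
  obtain ⟨hm, hm'⟩ := deg_orb m
  obtain ⟨hn, hn'⟩ := deg_orb n
  have h1 : (orb m).1 * (orb n).2 = (orb n).1 * (orb m).2 := sub_eq_zero.1 h0
  have h2 := congrArg natDegree h1
  rw [natDegree_mul hm (orb_snd_ne n), natDegree_mul hn (orb_snd_ne m)] at h2
  have h3 : 2 ^ m < 2 ^ n := Nat.pow_lt_pow_right (by norm_num) hmn
  omega

end Pool.Agent.Lib.MP_2ab887_nt
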