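import Mathlib

/-!
# The orbit of the counterexample, over `(ZMod 2)[X]`

We study the pair of binary quartic forms
`F = (x^2 + x y) (x^2 + t x y + (t + t^2) y^2)` and `G = t y^2 (x^2 + t x y + t y^2)`
over `(ZMod 2)[t]`, starting at the point `[t^2 : 1]`.
-/

set_option autoImplicit false

open Polynomial

namespace Pool.Agent.Lib.MP_2ab887_nt

/-- First quartic form. -/
def FF {R : Type*} [CommRing R] (t x y : R) : R :=
  (x ^ 2 + x * y) * (x ^ 2 + t * x * y + (t + t ^ 2) * y ^ 2)

/-- Second quartic form. -/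
def GG {R : Type*} [CommRing R] (t x y : R) : R :=
  t * y ^ 2 * (x ^ 2 + t * x * y + t * y ^ 2)

theorem map_FF {R S : Type*} [CommRing R] [CommRing S] (f : R →+* S) (t x y : R) :
    f (FF t x y) = FF (f t) (f x) (f y) := by
  simp [FF]

theorem map_GG {R S : Type*} [CommRing R] [CommRing S] (f : R →+* S) (t x y : R) :
    f (GG t x y) = GG (f t) (f x) (f y) := by
  simp [GG]

theorem FF_smul {R : Type*} [CommRing R] (c t x y : R) :
    FF t (c * x) (c * y) = c ^ 4 * FF t x y := by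
  simp only [FF]; ring

theorem GG_smul {R : Type*} [CommRing R] (c t x y : R) :
    GG t (c * x) (c * y) = c ^ 4 * GG t x y := by
  simp only [GG]; ring

/-- The two forms have no common zero in a field of characteristic two in which `t ≠ 0`. -/
theorem no_common_zero {L : Type*} [Field L] (h2 : (2 : L) = 0) {t x y : L} (ht : t ≠ 0)
    (hF : FF t x y = 0) (hG : GG t x y = 0) : x = 0 ∧ y = 0 := by
  by_cases hy : y = 0
  · subst hy
    simp only [FF] at hF
    have : x ^ 4 = 0 := by linear_combination hF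
    exact ⟨pow_eq_zero_iff (by norm_num) |>.1 this, rfl⟩
  · exfalso
    simp only [GG] at hG
    simp only [FF] at hF
    have hQ : x ^ 2 + t * x * y + t * y ^ 2 = 0 := by
      have h1 : t * y ^ 2 ≠ 0 := mul_ne_zero ht (pow_ne_zero _ hy)
      exact (mul_eq_zero.1 hG).resolve_left h1
    have h3 : x * (x + y) * (t ^ 2 * y ^ 2) = 0 := by
      linear_combination hF - (x ^ 2 + x * y) * hQ
    have h4 : t ^ 2 * y ^ 2 ≠ 0 := mul_ne_zero (pow_ne_zero _ ht) (pow_ne_zero _ hy)
    have h5 : x * (x + y) = 0 := (mul_eq_zero.1 h3).resolve_right h4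
    rcases mul_eq_zero.1 h5 with h6 | h6
    · subst h6
      have : t * y ^ 2 = 0 := by linear_combination hQ
      exact (mul_ne_zero ht (pow_ne_zero _ hy)) this
    · have hx : x = y := by linear_combination h6 - y * h2
      subst hx
      have : x ^ 2 = 0 := by linear_combination hQ - t * x ^ 2 * h2
      exact (pow_ne_zero _ hy) this

/-- The pair of polynomials describing the reduced orbit. -/
noncomputable def nxt (p : (ZMod 2)[X] × (ZMod 2)[X]) : (ZMod 2)[X] × (ZMod 2)[X] :=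
  if p.1.coeff 0 = 0 then
    (p.1.divX * (p.1 + p.2) * (X * p.1.divX ^ 2 + X * p.1.divX * p.2 + (1 + X) * p.2 ^ 2),
      p.2 ^ 2 * (X * p.1.divX ^ 2 + X * p.1.divX * p.2 + p.2 ^ 2))
  else
    (p.1 * (p.1.divX + p.2.divX) * (p.1 ^ 2 + X * p.1 * p.2 + (X + X ^ 2) * p.2 ^ 2),
      p.2 ^ 2 * (p.1 ^ 2 + X * p.1 * p.2 + X * p.2 ^ 2))

/-- The digit: the power of `X` that is removed. -/
noncomputable def dig (p : (ZMod 2)[X] × (ZMod 2)[X]) : ℕ :=
  if p.1.coeff 0 = 0 then 2 else 1

theorem zmod2_eq_one {a : ZMod 2} (h : a ≠ 0) : a = 1 := by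
  revert a; decide

theorem two_eq_zero' : (2 : (ZMod 2)[X]) = 0 := CharTwo.two_eq_zero

theorem FF_nxt (p : (ZMod 2)[X] × (ZMod 2)[X]) (h2 : p.2.coeff 0 = 1) :
    FF X p.1 p.2 = X ^ dig p * (nxt p).1 := by
  obtain ⟨A, B⟩ := p
  simp only at h2
  simp only [nxt, dig]
  have hA := A.X_mul_divX_add
  have hB := B.X_mul_divX_add
  rw [h2, C_1] at hB
  by_cases h : A.coeff 0 = 0
  · rw [h, C_0, add_zero] at hA
    rw [if_pos h, if_pos h]
    simp only [FF]
    set A' := A.divX
    rw [← hA]; ring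
  · rw [if_neg h, if_neg h]
    rw [zmod2_eq_one h, C_1] at hA
    simp only [FF]
    set A' := A.divX
    set B' := B.divX
    have h0 : A + B = X * (A' + B') := by
      linear_combination (-1 : (ZMod 2)[X]) * hA - hB + two_eq_zero'
    have : A ^ 2 + A * B = X * (A * (A' + B')) := by linear_combination A * h0
    rw [this]; ring

theorem GG_nxt (p : (ZMod 2)[X] × (ZMod 2)[X]) :
    GG X p.1 p.2 = X ^ dig p * (nxt p).2 := by
  obtain ⟨A, B⟩ := p
  simp only [nxt, dig]
  have hA := A.X_mul_divX_add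
  by_cases h : A.coeff 0 = 0
  · rw [h, C_0, add_zero] at hA
    rw [if_pos h, if_pos h]
    simp only [GG]
    set A' := A.divX
    rw [← hA]; ring
  · rw [if_neg h, if_neg h]
    simp only [GG]
    ring

theorem nxt_snd_coeff (p : (ZMod 2)[X] × (ZMod 2)[X]) (h2 : p.2.coeff 0 = 1) :
    (nxt p).2.coeff 0 = 1 := by
  obtain ⟨A, B⟩ := p
  simp only at h2
  simp only [nxt]
  by_cases h : A.coeff 0 = 0
  · rw [if_pos h]
    simp only [coeff_zero_eq_eval_zero] at *
    simp [h2]
  · rw [if_neg h]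
    have h' := zmod2_eq_one h
    simp only [coeff_zero_eq_eval_zero] at *
    simp [h2, h']

/-- The starting pair. -/
noncomputable def orb : ℕ → (ZMod 2)[X] × (ZMod 2)[X]
  | 0 => (X ^ 2, 1)
  | n + 1 => nxt (orb n)

/-- accumulated power of `X`. -/
noncomputable def acc : ℕ → ℕ
  | 0 => 0
  | n + 1 => 4 * acc n + dig (orb n)

theorem orb_snd_coeff (n : ℕ) : (orb n).2.coeff 0 = 1 := by
  induction n with
  | zero => simp [orb]
  | succ n ih => exact nxt_snd_coeff _ ih

theorem FF_orb (n : ℕ) :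
    FF X (X ^ acc n * (orb n).1) (X ^ acc n * (orb n).2) = X ^ acc (n + 1) * (orb (n + 1)).1 := by
  rw [FF_smul, FF_nxt _ (orb_snd_coeff n)]
  simp only [acc, orb, pow_add, pow_mul]
  ring

theorem GG_orb (n : ℕ) :
    GG X (X ^ acc n * (orb n).1) (X ^ acc n * (orb n).2) = X ^ acc (n + 1) * (orb (n + 1)).2 := by
  rw [GG_smul, GG_nxt]
  simp only [acc, orb, pow_add, pow_mul]
  ring

theorem dig_eq (p : (ZMod 2)[X] × (ZMod 2)[X]) : dig p = 1 ∨ dig p = 2 := by
  unfold dig; split_ifs <;> simp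

end Pool.Agent.Lib.MP_2ab887_nt
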